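import Pool.Agent.helper63.TI.SpecF

/-!
# Project ti, row FD5
-/

set_option autoImplicit false

namespace Pool.Agent.TI

open Polynomial NumberField Pool.Agent.GJ Pool.Agent.TK
open Pool.Agent.FJ (VT Om chiO IsFrobO rf rs)
open scoped NumberField Topology

noncomputable section

theorem FD5_phi (n : ℕ) (hn : 0 < n) :
    0 < ∑ d ∈ n.divisors, ((ArithmeticFunction.moebius d : ℤ) : ℝ) / d := by
  have h1 : ∀ m : ℕ, m > 0 → ∑ i ∈ m.divisors, ((Nat.totient i : ℕ) : ℝ) = (m : ℝ) := by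
    intro m _
    exact_mod_cast Nat.sum_totient m
  have h2 := (ArithmeticFunction.sum_eq_iff_sum_mul_moebius_eq
    (f := fun i : ℕ => ((Nat.totient i : ℕ) : ℝ)) (g := fun i : ℕ => (i : ℝ))).1 h1 n hn
  rw [Nat.sum_divisorsAntidiagonal
    (fun a b : ℕ => ((ArithmeticFunction.moebius a : ℤ) : ℝ) * (b : ℝ))] at h2
  have hn' : (0 : ℝ) < n := by exact_mod_cast hn
  have h3 : (∑ d ∈ n.divisors, ((ArithmeticFunction.moebius d : ℤ) : ℝ) / d) * n =
      ((Nat.totient n : ℕ) : ℝ) := by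
    rw [← h2, Finset.sum_mul]
    refine Finset.sum_congr rfl fun d hd => ?_
    rw [Nat.cast_div (Nat.dvd_of_mem_divisors hd)
      (by exact_mod_cast (Nat.pos_of_mem_divisors hd).ne')]
    ring
  have h4 : (0 : ℝ) < ((Nat.totient n : ℕ) : ℝ) := by exact_mod_cast Nat.totient_pos.2 hn
  rw [← h3] at h4
  exact pos_of_mul_pos_left h4 hn'.le

theorem FD5 (hKE5 : KE5_stmt) : FD5_stmt := by
  classical
  intro n D M _ _ hn hD
  by_contra hcon
  push Not at hcon
  have hφ := FD5_phi n hn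
  obtain ⟨φ, hφd⟩ : ∃ φ : ℝ, φ = ∑ d ∈ n.divisors,
    ((ArithmeticFunction.moebius d : ℤ) : ℝ) / d := ⟨_, rfl⟩
  rw [← hφd] at hφ
  choose C δ hδ H using fun d => hKE5 (M d)
  obtain ⟨F, hF⟩ : ∃ F : ℕ → ℝ, F = fun p => ∑ d ∈ n.divisors,
    ((ArithmeticFunction.moebius d : ℤ) : ℝ) / d * (nid (M d) p : ℝ) := ⟨_, rfl⟩
  have hFle : ∀ p : ℕ, p.Prime → ¬ p ∣ D → F p ≤ 0 := by
    intro p hp hpD
    rw [hF]
    exact hcon p hp hpD
  obtain ⟨e, he⟩ : ∃ e : Nat.Primes → ℝ, 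
    e = fun p : Nat.Primes => if (p : ℕ) ∣ D then |F (p : ℕ)| else 0 := ⟨_, rfl⟩
  have hfin : (Function.support e).Finite := by
    have h1 : (Function.support e) ⊆ {p : Nat.Primes | (p : ℕ) ∣ D} := by
      intro p hp
      by_contra h
      apply hp
      have h' : ¬ (p : ℕ) ∣ D := h
      rw [he]
      simp only [h', if_false]
    refine Set.Finite.subset ?_ h1
    have h2 : ((fun p : Nat.Primes => (p : ℕ)) ⁻¹' ((D.divisors : Finset ℕ) : Set ℕ)).Finite :=
      Set.Finite.preimage (fun p _ q _ h => Subtype.ext h) (Finset.finite_toSet _)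
    refine h2.subset ?_
    intro p hp
    simp only [Set.mem_preimage, Finset.mem_coe, Nat.mem_divisors]
    exact ⟨hp, hD.ne'⟩
  have hesum : Summable e := summable_of_hasFiniteSupport hfin
  obtain ⟨K, hK⟩ : ∃ K : ℝ, K = ∑' p, e p := ⟨_, rfl⟩
  obtain ⟨B, hB⟩ : ∃ B : ℝ, B = ∑ d ∈ n.divisors,
    |((ArithmeticFunction.moebius d : ℤ) : ℝ) / d| * C d := ⟨_, rfl⟩
  have key : ∀ s : ℝ, 1 < s → (∀ d ∈ n.divisors, s < 1 + δ d) →
      φ * (-Real.log (s - 1)) - B ≤ K := by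
    intro s h1 h2
    have hps : ∀ p : Nat.Primes, ((p : ℕ) : ℝ) ^ (-s) ≤ 1 := by
      intro p
      apply Real.rpow_le_one_of_one_le_of_nonpos
      · exact_mod_cast p.2.one_le
      · linarith
    have hps0 : ∀ p : Nat.Primes, 0 ≤ ((p : ℕ) : ℝ) ^ (-s) := by
      intro p
      positivity
    have hle : ∀ p : Nat.Primes, F p * ((p : ℕ) : ℝ) ^ (-s) ≤ e p := by
      intro p
      rw [he]
      by_cases h : (p : ℕ) ∣ D
      · simp only [h, if_true]
        calc F p * ((p : ℕ) : ℝ) ^ (-s) ≤ |F p| * ((p : ℕ) : ℝ) ^ (-s) :=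
              mul_le_mul_of_nonneg_right (le_abs_self _) (hps0 p)
          _ ≤ |F p| * 1 := mul_le_mul_of_nonneg_left (hps p) (abs_nonneg _)
          _ = |F p| := mul_one _
      · simp only [h, if_false]
        exact mul_nonpos_of_nonpos_of_nonneg (hFle p p.2 h) (hps0 p)
    have hterm : ∀ d ∈ n.divisors, Summable fun p : Nat.Primes =>
        ((ArithmeticFunction.moebius d : ℤ) : ℝ) / d * ((nid (M d) p : ℝ) * ((p : ℕ) : ℝ) ^ (-s)) :=
      fun d hd => (H d s h1 (h2 d hd)).1.mul_left _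
    have hFeq : (fun p : Nat.Primes => F p * ((p : ℕ) : ℝ) ^ (-s)) = fun p : Nat.Primes =>
        ∑ d ∈ n.divisors, ((ArithmeticFunction.moebius d : ℤ) : ℝ) / d *
          ((nid (M d) p : ℝ) * ((p : ℕ) : ℝ) ^ (-s)) := by
      funext p
      rw [hF]
      simp only
      rw [Finset.sum_mul]
      refine Finset.sum_congr rfl fun d _ => ?_
      ring
    have hFsum : Summable fun p : Nat.Primes => F p * ((p : ℕ) : ℝ) ^ (-s) := by
      rw [hFeq]
      exact summable_sum hterm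
    have hsum := hFsum.tsum_le_tsum hle hesum
    rw [← hK, hFeq, Summable.tsum_finsetSum hterm] at hsum
    refine le_trans ?_ hsum
    rw [hφd, hB, Finset.sum_mul, ← Finset.sum_sub_distrib]
    refine Finset.sum_le_sum fun d hd => ?_
    rw [tsum_mul_left]
    have h3 := (H d s h1 (h2 d hd)).2
    obtain ⟨x, hx⟩ : ∃ x : ℝ, x = ∑' p : Nat.Primes, (nid (M d) p : ℝ) * ((p : ℕ) : ℝ) ^ (-s) :=
      ⟨_, rfl⟩
    rw [← hx] at h3 ⊢
    obtain ⟨m, hm⟩ : ∃ m : ℝ, m = ((ArithmeticFunction.moebius d : ℤ) : ℝ) / d := ⟨_, rfl⟩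
    rw [← hm]
    have h4 : |m * (x + Real.log (s - 1))| ≤ |m| * C d := by
      rw [abs_mul]
      exact mul_le_mul_of_nonneg_left h3 (abs_nonneg _)
    have h5 := (abs_le.1 h4).1
    linarith
  -- choose `s`
  obtain ⟨δ0, hδ0, hδle⟩ : ∃ δ0 : ℝ, 0 < δ0 ∧ ∀ d ∈ n.divisors, δ0 ≤ δ d := by
    have hne : n.divisors.Nonempty := Nat.nonempty_divisors.2 hn.ne'
    refine ⟨n.divisors.inf' hne δ, ?_, fun d hd => Finset.inf'_le _ hd⟩
    rw [Finset.lt_inf'_iff]
    exact fun d _ => hδ d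
  obtain ⟨t, ht0, htδ, htB⟩ : ∃ t : ℝ, 0 < t ∧ t < δ0 ∧ (B + K + 1) / φ ≤ -Real.log t := by
    refine ⟨min (Real.exp (-((B + K + 1) / φ))) (δ0 / 2), ?_, ?_, ?_⟩
    · exact lt_min (Real.exp_pos _) (by linarith)
    · exact lt_of_le_of_lt (min_le_right _ _) (by linarith)
    · have h1 : Real.log (min (Real.exp (-((B + K + 1) / φ))) (δ0 / 2)) ≤
          Real.log (Real.exp (-((B + K + 1) / φ))) :=
        Real.log_le_log (lt_min (Real.exp_pos _) (by linarith)) (min_le_left _ _)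
      rw [Real.log_exp] at h1
      linarith
  have h := key (1 + t) (by linarith) (fun d hd => by have := hδle d hd; linarith)
  have e1 : (1 + t) - 1 = t := by ring
  rw [e1] at h
  have h6 : B + K + 1 ≤ φ * (-Real.log t) := by
    rw [div_le_iff₀ hφ] at htB
    linarith
  linarith

end

end Pool.Agent.TI
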