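import Pool.Agent.helper63.TI.SpecA

/-!
# Project ti, row TRD: transfer of eigenvalues for all curves
-/

set_option autoImplicit false

namespace Pool.Agent.TI

open Polynomial NumberField Pool.Agent.GJ Pool.Agent.TK Pool.Agent.TQ Pool.Agent.TFQ Pool.Agent.TD Pool.Agent.AQ
open Pool.Agent.FJ (VT Om chiO IsFrobO rf rs)
open scoped TensorProduct

noncomputable section

theorem TRD (hTRF : TRF_stmt) (hQPL : TFQ.QPL_stmt) (hE4 : FJ.E4_stmt) : TRD_stmt := by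
  intro l q _ _ hl D hn
  have h2l : 2 < l := lt_of_le_of_ne (Fact.out : l.Prime).two_le (Ne.symm hl)
  have hall := fun i => hTRF l (D.n i) q hl (hn i) (D.μ i) (D.a i)
  choose w D0 hw hD0 hT using hall
  obtain ⟨DQ, hDQ, hQ⟩ := hQPL l D h2l
  refine ⟨∑ i, w i * D.n i + 1, l * q * (∏ i, D0 i) * DQ, Nat.succ_pos _, ?_, ?_⟩
  · have h1 : 0 < l := (Fact.out : l.Prime).pos
    have h2 : 0 < q := (Fact.out : q.Prime).pos
    have h3 : 0 < ∏ i, D0 i := Finset.prod_pos fun i _ => hD0 i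
    positivity
  intro p M _ O _ σ hσ hM hfrob hζ hD
  have hD' : (((l : ℕ) : rf O) * ((q : ℕ) : rf O) * (∏ i, ((D0 i : ℕ) : rf O)) * ((DQ : ℕ) : rf O)) ≠ 0 := by
    have e : ((l * q * (∏ i, D0 i) * DQ : ℕ) : rf O) =
        ((l : ℕ) : rf O) * ((q : ℕ) : rf O) * (∏ i, ((D0 i : ℕ) : rf O)) * ((DQ : ℕ) : rf O) := by
      push_cast
      rfl
    rw [← e]
    exact hD
  have hDQ' : ((DQ : ℕ) : rf O) ≠ 0 := right_ne_zero_of_mul hD'
  have h1 := left_ne_zero_of_mul hD'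
  have hP : ∏ i, ((D0 i : ℕ) : rf O) ≠ 0 := right_ne_zero_of_mul h1
  have h2 := left_ne_zero_of_mul h1
  have hq' : ((q : ℕ) : rf O) ≠ 0 := right_ne_zero_of_mul h2
  have hl' : ((l : ℕ) : rf O) ≠ 0 := left_ne_zero_of_mul h2
  have hi : ∀ i, ((D0 i : ℕ) : rf O) ≠ 0 := fun i => Finset.prod_ne_zero_iff.1 hP i (Finset.mem_univ i)
  obtain ⟨F, _, _, _, α, e, χ, A, hcq, hpl⟩ := hQ p M O σ hM hfrob hσ (fun s hs => hζ s hs) hDQ'
  refine ⟨?_, ?_, ?_⟩
  · rw [hE4 O σ (p ^ M) l hfrob hl']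
    push_cast
    rfl
  · rw [hE4 O σ (p ^ M) q hfrob hq']
    push_cast
    rfl
  intro s hs jl jq i r hr hrl v c hv hk
  refine hT i p M α F O e χ σ (A i) (hpl i) hcq (hi i) s hs jl jq r hr hrl v c hv ?_
  intro k hkb hks hkp
  refine hk k (fun t => (hkb t).trans ?_) hks hkp
  have h3 : w i * D.n i ≤ ∑ i, w i * D.n i :=
    Finset.single_le_sum (f := fun i => w i * D.n i) (fun _ _ => Nat.zero_le _) (Finset.mem_univ i)
  have h4 : w i * D.n i ≤ ∑ i, w i * D.n i + 1 := h3.trans (Nat.le_succ _)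
  exact_mod_cast h4

end

end Pool.Agent.TI
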